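import Pool.Agent.W54.TCF.Fin

/-!
# The average multiplicity of the zeros of Hardy's function

Assuming the Riemann hypothesis, the average multiplicity of a real zero of `Z` (zeros counted with
multiplicity) is at most `1.306`, and the proportion of the zeros of multiplicity at least `j` is
at most `v / (v + (j Q - E)²)` with `v = 0.1208`, `Q = (53/60)²`, `E = 1.037`.
-/

open Filter Topology Complex

namespace Pool.Agent.Results.MP_6bc78b_nt.AverageMultiplicity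

/-- the phase `exp (i ϑ(t))`, with `ϑ(t) = arg Γ(1/4 + i t / 2) - (t / 2) log π` -/
noncomputable def phase (t : ℝ) : ℂ :=
  Gamma (1 / 4 + I * t / 2) / ‖Gamma (1 / 4 + I * t / 2)‖ * cexp (-(I * (t / 2) * Real.log Real.pi))

/-- Hardy's function `Z(t) = exp (i ϑ(t)) ζ(1/2 + i t)` -/
noncomputable def Z (t : ℝ) : ℂ := phase t * riemannZeta (1 / 2 + I * t)

/-- the multiplicity of a real zero `t` of `Z`: the least `m ≥ 1` such that the `m`-th derivative of
`Z` at `t` is not zero -/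
noncomputable def mlt (t : ℝ) : ℕ := sInf {m : ℕ | 1 ≤ m ∧ iteratedDeriv m Z t ≠ 0}

/-- the zeros of `Z` in `(0, T]` -/
def ZZ (T : ℝ) : Set ℝ := {t : ℝ | 0 < t ∧ t ≤ T ∧ Z t = 0}

/-- the nontrivial zeros of zeta with ordinate in `(0, T]` -/
def zeros (T : ℝ) : Set ℂ :=
  {s : ℂ | riemannZeta s = 0 ∧ 0 < s.re ∧ s.re < 1 ∧ 0 < s.im ∧ s.im ≤ T}

/-- the number of nontrivial zeros with ordinate in `(0, T]`, counted with multiplicity -/
noncomputable def N (T : ℝ) : ℕ := ∑ᶠ s ∈ zeros T, analyticOrderNatAt riemannZeta s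

lemma N_eq (T : ℝ) : N T = H370.NN riemannZeta 0 T := by
  have zeros_eq : zeros T = H370.zset riemannZeta 0 T := by
    ext s
    simp only [zeros, H370.zset, Set.mem_ofPred_eq]
    tauto
  unfold N H370.NN H370.mult
  rw [zeros_eq]

/-- **Theorem.** Assume the Riemann hypothesis.
* The real zeros of `Z` up to height `T` are finite in number and their multiplicities add up to
  `N T`.
* For all large `T` the sum over the real zeros `t` of `Z` in `(0, T]`, each counted with its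
  multiplicity, of their multiplicity (that is, the sum over distinct zeros of the square of the
  multiplicity) is at most `1.306 N T`.
* For every `j ≥ 2` the zeros of multiplicity at least `j`, counted with multiplicity, have upper
  density at most `v / (v + (j Q - E)²)`; for `j = 3` and `j = 4` they number at most `0.0664 N T`
  and `0.0271 N T` for all large `T`. -/
theorem result (hRH : RiemannHypothesis) :
    (∀ T : ℝ, (ZZ T).Finite ∧ ∑ᶠ t ∈ ZZ T, mlt t = N T) ∧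
    (∃ T0 : ℝ, ∀ T : ℝ, T0 ≤ T → ∑ᶠ t ∈ ZZ T, (mlt t : ℝ) ^ 2 ≤ 1306 / 1000 * (N T : ℝ)) ∧
    (∀ j : ℕ, 2 ≤ j → ∀ ε : ℝ, 0 < ε → ∃ T0 : ℝ, ∀ T : ℝ, T0 ≤ T →
      ∑ᶠ t ∈ {t : ℝ | t ∈ ZZ T ∧ j ≤ mlt t}, (mlt t : ℝ) ≤
        ((151 / 1250) / ((151 / 1250) + (j * (2809 / 3600) - 1037 / 1000) ^ 2) + ε) * (N T : ℝ)) ∧
    (∃ T0 : ℝ, ∀ T : ℝ, T0 ≤ T →
      ∑ᶠ t ∈ {t : ℝ | t ∈ ZZ T ∧ 3 ≤ mlt t}, (mlt t : ℝ) ≤ 664 / 10000 * (N T : ℝ) ∧
      ∑ᶠ t ∈ {t : ℝ | t ∈ ZZ T ∧ 4 ≤ mlt t}, (mlt t : ℝ) ≤ 271 / 10000 * (N T : ℝ)) := by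
  have ev : TC.vv = 151 / 1250 := by unfold TC.vv; norm_num
  have eE : TC.EE = 1037 / 1000 := rfl
  have htail : ∀ j : ℕ, 2 ≤ j → ∀ ε : ℝ, 0 < ε → ∃ T0 : ℝ, ∀ T : ℝ, T0 ≤ T →
      ∑ᶠ t ∈ {t : ℝ | t ∈ ZZ T ∧ j ≤ mlt t}, (mlt t : ℝ) ≤
        ((151 / 1250) / ((151 / 1250) + (j * (2809 / 3600) - 1037 / 1000) ^ 2) + ε) *
          (N T : ℝ) := by
    intro j hj ε hε
    obtain ⟨T0, h⟩ := Pool.Agent.W54.TCF.tail hRH j hj ε hε
    refine ⟨T0, fun T hT => ?_⟩
    have h1 := h T hT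
    rw [ev, eE, ← N_eq] at h1
    exact h1
  refine ⟨fun T => ⟨Pool.Agent.W54.TCF.ZZ_finite hRH T, ?_⟩, ?_, htail, ?_⟩
  · rw [N_eq]
    exact Pool.Agent.W54.TCF.sum_mlt hRH T
  · obtain ⟨T0, h⟩ := Pool.Agent.W54.TCF.average hRH
    refine ⟨T0, fun T hT => ?_⟩
    have h1 := h T hT
    rw [← N_eq] at h1
    exact h1
  · obtain ⟨T1, h1⟩ := htail 3 (by norm_num) (1 / 100000) (by norm_num)
    obtain ⟨T2, h2⟩ := htail 4 (by norm_num) (1 / 100000) (by norm_num)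
    refine ⟨max T1 T2, fun T hT => ⟨?_, ?_⟩⟩
    · refine (h1 T ((le_max_left _ _).trans hT)).trans ?_
      apply mul_le_mul_of_nonneg_right _ (Nat.cast_nonneg _)
      norm_num
    · refine (h2 T ((le_max_right _ _).trans hT)).trans ?_
      apply mul_le_mul_of_nonneg_right _ (Nat.cast_nonneg _)
      norm_num

end Pool.Agent.Results.MP_6bc78b_nt.AverageMultiplicity
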