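import Pool.Agent.H345R2.CT.D

open Complex

namespace Pool.Agent.Results.MP_6bc78b_nt.MultiplicityTail

/-- multiplicity of `s` as a zero of the Riemann zeta function (order of vanishing at `s`) -/
noncomputable def zmult (s : ℂ) : ℕ := analyticOrderNatAt riemannZeta s

/-- the number of nontrivial zeros of `ζ` with ordinate in `(0, t]`, with multiplicity -/
noncomputable def NZ (t : ℝ) : ℕ :=
  ∑ᶠ s ∈ {s : ℂ | riemannZeta s = 0 ∧ 0 < s.re ∧ s.re < 1 ∧ 0 < s.im ∧ s.im ≤ t}, zmult s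

/-- On the Riemann hypothesis: the zeros `1/2 + it` of `ζ` (that is, the real zeros `t` of `Z`) with
`0 < t ≤ T` and multiplicity at least `m`, counted with multiplicity, number at most
`N(T) exp (-c m log m)`, uniformly in `T` and in `m ≥ m0`. -/
theorem result (RH : RiemannHypothesis) :
    ∃ c : ℝ, 0 < c ∧ ∃ m0 : ℕ, ∀ m : ℕ, m0 ≤ m → ∀ T : ℝ,
      {t : ℝ | 0 < t ∧ t ≤ T ∧ riemannZeta (1 / 2 + I * t) = 0 ∧
        m ≤ zmult (1 / 2 + I * t)}.Finite ∧
      ((∑ᶠ t ∈ {t : ℝ | 0 < t ∧ t ≤ T ∧ riemannZeta (1 / 2 + I * t) = 0 ∧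
          m ≤ zmult (1 / 2 + I * t)}, zmult (1 / 2 + I * t) : ℕ) : ℝ) ≤
        NZ T * Real.exp (-(c * m * Real.log m)) := by
  have hRHs : SP.RHs := by
    intro s h1 h2 h0
    apply RH s h0
    · rintro ⟨k, hk⟩
      have := congrArg Complex.re hk
      simp at this
      have hk0 : (0 : ℝ) ≤ k := Nat.cast_nonneg k
      linarith
    · intro h; rw [h] at h2; simp at h2
  obtain ⟨c, hc, m0, hm0, H⟩ := LG.CU.mult_tail hRHs
  refine ⟨c, hc, m0, fun m hm T => ?_⟩
  set S : Set ℝ := {t : ℝ | 0 < t ∧ t ≤ T ∧ riemannZeta (1 / 2 + I * t) = 0 ∧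
        m ≤ zmult (1 / 2 + I * t)} with hS
  have hfin : S.Finite := by
    have h1 := SG.ZS_finite T
    refine Set.Finite.of_finite_image (f := fun t : ℝ => (1 / 2 + I * t : ℂ)) (h1.subset ?_) ?_
    · rintro _ ⟨t, ht, rfl⟩
      rw [hS] at ht
      obtain ⟨a1, a2, a3, a4⟩ := ht
      refine ⟨a3, by simp, by simp; norm_num, by simpa using a1, by simpa using a2⟩
    · intro a _ b _ hab
      have := congrArg Complex.im hab
      simpa using this
  refine ⟨hfin, ?_⟩
  have h2 := H T m hm hfin.toFinset (by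
    intro t ht
    rw [Set.Finite.mem_toFinset] at ht
    exact ht)
  rw [finsum_mem_eq_finite_toFinset_sum _ hfin]
  calc _ ≤ _ := h2
    _ = _ := by rw [neg_mul, neg_mul]; rfl

end Pool.Agent.Results.MP_6bc78b_nt.MultiplicityTail
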