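import Pool.Agent.Results.MP_6bc78b_nt.SimpleZerosOfZ
import Pool.Agent.W69.DZ.Zero
import Pool.Agent.W69.DZ.All

/-!
# Simple zeros of Hardy's function and zeros of high multiplicity

Unconditionally, for all large `T`, the function `Z` has at least `0.6726 N(T) + 2 E(T)` simple
zeros in `(0, T]`, where `E(T)` is the sum of `max (m - 2) 0` over the distinct zeros of zeta on
the critical line and of `m - 1` over the distinct zeros off the line, `m` the multiplicity.
Hence the real zeros of `Z` of multiplicity at least `j`, counted with multiplicity, number at most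
`0.3274 j / (3 j - 4) N(T)`, uniformly in `j ≥ 2`.  The first bound holds with `2 - c(h) - ε` for
`0.6726` in every interval `(T, T + H]` with `T ^ h ≤ H ≤ T`, `c(h) = h/2 + cot(h/√2)/√2`.
-/

open Filter Topology Complex

namespace Pool.Agent.Results.MP_6bc78b_nt.SimplePlusExcess

/-- the phase `exp (i ϑ(t))`, with `ϑ(t) = arg Γ(1/4 + i t / 2) - (t / 2) log π` -/
noncomputable def phase (t : ℝ) : ℂ :=
  Gamma (1 / 4 + I * t / 2) / ‖Gamma (1 / 4 + I * t / 2)‖ * cexp (-(I * (t / 2) * Real.log Real.pi))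

/-- Hardy's function `Z(t) = exp (i ϑ(t)) ζ(1/2 + i t)` -/
noncomputable def Z (t : ℝ) : ℂ := phase t * riemannZeta (1 / 2 + I * t)

/-- the simple real zeros of `Z` in `(T₁, T₂]` -/
def simpleZeros (T₁ T₂ : ℝ) : Set ℝ := {t : ℝ | T₁ < t ∧ t ≤ T₂ ∧ Z t = 0 ∧ deriv Z t ≠ 0}

/-- the multiplicity of `s` as a zero of zeta -/
noncomputable def mult (s : ℂ) : ℕ := analyticOrderNatAt riemannZeta s

/-- the nontrivial zeros of zeta with ordinate in `(T₁, T₂]` -/
def zeros (T₁ T₂ : ℝ) : Set ℂ :=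
  {s : ℂ | riemannZeta s = 0 ∧ 0 < s.re ∧ s.re < 1 ∧ T₁ < s.im ∧ s.im ≤ T₂}

/-- the number of nontrivial zeros with ordinate in `(T₁, T₂]`, counted with multiplicity -/
noncomputable def N (T₁ T₂ : ℝ) : ℕ := ∑ᶠ s ∈ zeros T₁ T₂, mult s

/-- the excess multiplicity: a zero of multiplicity `m` counts `max (m - 2) 0` if it is on the
critical line and `m - 1` if it is off the line (subtraction of natural numbers) -/
noncomputable def excess (T₁ T₂ : ℝ) : ℕ :=
  ∑ᶠ s ∈ zeros T₁ T₂, (if s.re = 1 / 2 then mult s - 2 else mult s - 1)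

/-- the real zeros of `Z` in `(0, T]` of multiplicity at least `j` -/
def zerosOfMult (j : ℕ) (T : ℝ) : Set ℝ :=
  {t : ℝ | 0 < t ∧ t ≤ T ∧ Z t = 0 ∧ j ≤ mult (1 / 2 + I * t)}

/-- their number, counted with multiplicity -/
noncomputable def A (j : ℕ) (T : ℝ) : ℕ := ∑ᶠ t ∈ zerosOfMult j T, mult (1 / 2 + I * t)

/-- the constant `c(h) = h/2 + cot(h/√2)/√2`; `c(1) = c_MT⁻¹ = 1.3274...` -/
noncomputable def c (h : ℝ) : ℝ := h / 2 + Real.cot (h / Real.sqrt 2) / Real.sqrt 2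

lemma Z_eq : Z = SimpleZerosOfZ.Z := rfl

lemma Z_zero_iff (t : ℝ) : Z t = 0 ↔ riemannZeta (1 / 2 + I * t) = 0 :=
  SimpleZerosOfZ.Z_zero_iff t

theorem zeros_eq (T₁ T₂ : ℝ) : zeros T₁ T₂ = H370.zset riemannZeta T₁ T₂ := by
  ext s
  simp only [zeros, H370.zset, Set.mem_ofPred_eq]
  tauto

/-- the sets of zeros that are counted are finite -/
theorem zeros_finite (T₁ T₂ : ℝ) (h : 0 ≤ T₁) : (zeros T₁ T₂).Finite := by
  rw [zeros_eq]
  exact (H370.zeta_zeros_finite T₂).subset (H370.zset_mono _ h le_rfl)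

theorem N_eq (T₁ T₂ : ℝ) : N T₁ T₂ = H370.NN riemannZeta T₁ T₂ := by
  unfold N H370.NN
  rw [zeros_eq]
  rfl

theorem excess_eq (T₁ T₂ : ℝ) : excess T₁ T₂ = W69DZ.EX riemannZeta T₁ T₂ := by
  unfold excess W69DZ.EX
  rw [zeros_eq]
  rfl

lemma inj_line : Function.Injective fun t : ℝ => (1 / 2 + I * t : ℂ) := by
  intro a b hab
  have := congrArg Complex.im hab
  simpa using this

theorem simpleZeros_finite (T₁ T₂ : ℝ) (h : 0 ≤ T₁) : (simpleZeros T₁ T₂).Finite := by
  refine (SimpleZerosOfZ.simpleZeros_finite T₂).subset ?_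
  rintro t ⟨h1, h2, h3, h4⟩
  exact ⟨lt_of_le_of_lt h h1, h2, h3, h4⟩

theorem zerosOfMult_finite (j : ℕ) (T : ℝ) : (zerosOfMult j T).Finite := by
  refine Set.Finite.of_finite_image ((zeros_finite 0 T le_rfl).subset ?_) inj_line.injOn
  rintro s ⟨t, ⟨h1, h2, h3, h4⟩, rfl⟩
  refine ⟨(Z_zero_iff t).mp h3, ?_, ?_, ?_, ?_⟩ <;> simp <;> first | assumption | norm_num

lemma Ns_le (T₁ T₂ : ℝ) (h : 0 ≤ T₁) :
    H370.Ns riemannZeta T₁ T₂ ≤ (simpleZeros T₁ T₂).ncard := by
  unfold H370.Ns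
  refine Set.ncard_le_ncard_of_injOn (fun s => s.im) ?_ ?_ (simpleZeros_finite T₁ T₂ h)
  · rintro s ⟨⟨h1, h2, h3, h4, h5⟩, h6, h7⟩
    have hs : (1 / 2 + I * s.im : ℂ) = s := by
      apply Complex.ext
      · simp [h6]
      · simp
    refine ⟨h3, h4, ?_, ?_⟩
    · rw [Z_zero_iff, hs]; exact h5
    · apply SimpleZerosOfZ.simple_of_order
      · rw [hs]; exact h5
      · rw [hs]; exact h7
  · rintro s ⟨-, h6, -⟩ s' ⟨-, h6', -⟩ h
    exact Complex.ext (h6.trans h6'.symm) h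

/-- `A j T` as a sum over the zeros of zeta -/
lemma A_eq (j : ℕ) (T : ℝ) : A j T =
    ∑ s ∈ (zeros_finite 0 T le_rfl).toFinset, (if s.re = 1 / 2 ∧ j ≤ mult s then mult s else 0) := by
  classical
  unfold A
  rw [finsum_mem_eq_finite_toFinset_sum _ (zerosOfMult_finite j T), ← Finset.sum_filter]
  refine Finset.sum_bij (fun t _ => (1 / 2 + I * t : ℂ)) ?_ ?_ ?_ ?_
  · intro t ht
    rw [Set.Finite.mem_toFinset] at ht
    obtain ⟨h1, h2, h3, h4⟩ := ht
    simp only [Finset.mem_filter, Set.Finite.mem_toFinset]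
    refine ⟨⟨(Z_zero_iff t).mp h3, ?_, ?_, ?_, ?_⟩, ?_, h4⟩ <;> simp <;>
      first | assumption | norm_num
  · intro a _ b _ hab
    exact inj_line hab
  · intro s hs
    simp only [Finset.mem_filter, Set.Finite.mem_toFinset] at hs
    obtain ⟨⟨h1, h2, h3, h4, h5⟩, h6, h7⟩ := hs
    have hs' : (1 / 2 + I * s.im : ℂ) = s := by
      apply Complex.ext
      · simp [h6]
      · simp
    refine ⟨s.im, ?_, hs'⟩
    rw [Set.Finite.mem_toFinset]
    refine ⟨h4, h5, ?_, ?_⟩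
    · rw [Z_zero_iff, hs']; exact h1
    · rw [hs']; exact h7
  · intro t _
    rfl

/-- simple zeros on the line, zeros of multiplicity at least `j`, and all zeros -/
lemma Ns_add_A_le (j : ℕ) (hj : 2 ≤ j) (T : ℝ) :
    H370.Ns riemannZeta 0 T + A j T ≤ N 0 T ∧ (j - 2) * A j T ≤ j * excess 0 T := by
  classical
  have hfin := zeros_finite 0 T le_rfl
  have e1 : H370.Ns riemannZeta 0 T =
      ∑ s ∈ hfin.toFinset, (if s.re = 1 / 2 ∧ mult s = 1 then 1 else 0) := by
    have h : {s : ℂ | s ∈ H370.zset riemannZeta 0 T ∧ s.re = 1 / 2 ∧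
        H370.mult riemannZeta s = 1} =
        ((hfin.toFinset.filter (fun s => s.re = 1 / 2 ∧ mult s = 1) : Finset ℂ) : Set ℂ) := by
      ext s
      simp only [Set.mem_ofPred_eq, Finset.coe_filter, Set.Finite.mem_toFinset, zeros_eq]
      rfl
    unfold H370.Ns
    rw [h, Set.ncard_coe_finset, Finset.card_filter]
  have e2 : N 0 T = ∑ s ∈ hfin.toFinset, mult s := finsum_mem_eq_finite_toFinset_sum _ hfin
  have e3 : excess 0 T = ∑ s ∈ hfin.toFinset,
      (if s.re = 1 / 2 then mult s - 2 else mult s - 1) :=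
    finsum_mem_eq_finite_toFinset_sum _ hfin
  have e4 := A_eq j T
  constructor
  · rw [e1, e2, e4, ← Finset.sum_add_distrib]
    refine Finset.sum_le_sum fun s _ => ?_
    split_ifs <;> omega
  · rw [e3, e4, Finset.mul_sum, Finset.mul_sum]
    refine Finset.sum_le_sum fun s _ => ?_
    by_cases h : s.re = 1 / 2
    · simp only [h, true_and, if_true]
      split_ifs with h1
      · obtain ⟨a, rfl⟩ := Nat.exists_eq_add_of_le hj
        obtain ⟨b, hb⟩ := Nat.exists_eq_add_of_le h1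
        have h2 : 2 + a - 2 = a := by omega
        have h3 : mult s - 2 = a + b := by omega
        rw [h2, h3, hb]
        nlinarith [Nat.zero_le (a * b), Nat.zero_le b]
      · simp
    · simp only [h, false_and, if_false]
      simp

/-- Unconditionally, the simple real zeros of `Z` in `(0, T]` number at least
`0.6726 N(T) + 2 E(T)`; the zeros of `Z` of multiplicity at least `j`, counted with multiplicity,
number at most `0.3274 j / (3 j - 4) N(T)`; and the first bound in short intervals. -/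
theorem result :
    (∃ T₀ : ℝ, ∀ T : ℝ, T₀ ≤ T →
      0.6726 * (N 0 T : ℝ) + 2 * (excess 0 T : ℝ) ≤ ((simpleZeros 0 T).ncard : ℝ) ∧
      ∀ j : ℕ, 2 ≤ j → (A j T : ℝ) ≤ 0.3274 * (j / (3 * j - 4)) * (N 0 T : ℝ)) ∧
    (∀ h ε : ℝ, 0 < h → h ≤ 1 → 0 < ε →
      ∃ T₀ : ℝ, ∀ T : ℝ, T₀ ≤ T → ∀ H : ℝ, T ^ h ≤ H → H ≤ T →
        (2 - c h - ε) * (N T (T + H) : ℝ) + 2 * (excess T (T + H) : ℝ) ≤
          ((simpleZeros T (T + H)).ncard : ℝ)) ∧
    ∀ h : ℝ, 0 < h → h ≤ 1 → c h ≤ 1 / h + h / 3 := by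
  refine ⟨?_, fun h ε h0 h1 hε => ?_, H295SI.cc_le⟩
  · obtain ⟨T0, hT0⟩ := W69DZ.zeta_simple
    refine ⟨T0, fun T hT => ⟨?_, fun j hj => ?_⟩⟩
    · have h1 := hT0 T hT
      have h2 : (H370.Ns riemannZeta 0 T : ℝ) ≤ (simpleZeros 0 T).ncard := by
        exact_mod_cast Ns_le 0 T le_rfl
      rw [N_eq, excess_eq]
      linarith
    · have h1 := hT0 T hT
      rw [← N_eq, ← excess_eq] at h1
      obtain ⟨h2, h3⟩ := Ns_add_A_le j hj T
      have h2' : (H370.Ns riemannZeta 0 T : ℝ) + A j T ≤ N 0 T := by exact_mod_cast h2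
      have h3' : ((j : ℝ) - 2) * A j T ≤ j * excess 0 T := by
        have h4 : (((j - 2 : ℕ) : ℝ)) * A j T ≤ j * excess 0 T := by exact_mod_cast h3
        rwa [Nat.cast_sub hj] at h4
      have hj' : (2 : ℝ) ≤ j := by exact_mod_cast hj
      have hpos : (0 : ℝ) < 3 * j - 4 := by linarith
      have h5 : (A j T : ℝ) * (3 * j - 4) ≤ 0.3274 * j * N 0 T := by
        have h6 : (A j T : ℝ) + 2 * excess 0 T ≤ 0.3274 * N 0 T := by linarith
        nlinarith
      calc (A j T : ℝ) = (A j T : ℝ) * (3 * j - 4) / (3 * j - 4) := by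
            field_simp
        _ ≤ (0.3274 * j * N 0 T) / (3 * j - 4) := by gcongr
        _ = 0.3274 * (j / (3 * j - 4)) * (N 0 T : ℝ) := by ring
  · obtain ⟨T0, hT1, hT0⟩ := W69DZ.short_all H370.good_zeta h ε h0 h1 hε
    refine ⟨T0, fun T hT H hH1 hH2 => ?_⟩
    have h2 := (hT0 T hT H hH1 hH2).1
    have hc : H295SI.cc h = c h := rfl
    rw [hc] at h2
    have h3 : (H370.Ns riemannZeta T (T + H) : ℝ) ≤ (simpleZeros T (T + H)).ncard := by
      exact_mod_cast Ns_le T (T + H) (by linarith)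
    rw [N_eq, excess_eq]
    linarith

end Pool.Agent.Results.MP_6bc78b_nt.SimplePlusExcess
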