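import Pool.Agent.W354.ZP.Final

/-!
# The size of the derivative of Hardy's function at its zeros

Unconditionally, there is a constant `C` such that, for all large `T`, at least `0.6725 N(T)` of the
zeros `t` of `Z` in `(0, T]` are simple and satisfy
`log t · exp (-C √(log log t)) ≤ |Z'(t)| ≤ log t · exp (C √(log log t))`, where `N(T)` counts all
nontrivial zeros of zeta with ordinate in `(0, T]`, with multiplicity.
-/

open Filter Topology Complex

namespace Pool.Agent.Results.MP_6bc78b_nt.SizeOfDerivative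

/-- the phase `exp (i ϑ(t))`, with `ϑ(t) = arg Γ(1/4 + i t / 2) - (t / 2) log π` -/
noncomputable def phase (t : ℝ) : ℂ :=
  Gamma (1 / 4 + I * t / 2) / ‖Gamma (1 / 4 + I * t / 2)‖ * cexp (-(I * (t / 2) * Real.log Real.pi))

/-- Hardy's function `Z(t) = exp (i ϑ(t)) ζ(1/2 + i t)` -/
noncomputable def Z (t : ℝ) : ℂ := phase t * riemannZeta (1 / 2 + I * t)

/-- the real zeros `t` of `Z` in `(0, T]` that are simple and at which `|Z'(t)|` has the size `log t` up to
a factor `exp (± C √(log log t))` -/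
def goodZeros (C T : ℝ) : Set ℝ :=
  {t : ℝ | 0 < t ∧ t ≤ T ∧ Z t = 0 ∧ deriv Z t ≠ 0 ∧
    Real.log t * Real.exp (-(C * Real.sqrt (Real.log (Real.log t)))) ≤ ‖deriv Z t‖ ∧
    ‖deriv Z t‖ ≤ Real.log t * Real.exp (C * Real.sqrt (Real.log (Real.log t)))}

/-- the nontrivial zeros of zeta with ordinate in `(0, T]` -/
def zeros (T : ℝ) : Set ℂ :=
  {s : ℂ | riemannZeta s = 0 ∧ 0 < s.re ∧ s.re < 1 ∧ 0 < s.im ∧ s.im ≤ T}

/-- the number of nontrivial zeros with ordinate in `(0, T]`, counted with multiplicity -/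
noncomputable def N (T : ℝ) : ℕ := ∑ᶠ s ∈ zeros T, analyticOrderNatAt riemannZeta s

lemma gamma_ne (t : ℝ) : Gamma (1 / 4 + I * t / 2) ≠ 0 := by
  apply Gamma_ne_zero_of_re_pos
  simp

lemma gamma_cont : Continuous fun t : ℝ => Gamma (1 / 4 + I * t / 2) := by
  rw [continuous_iff_continuousAt]
  intro t
  have h1 : ContinuousAt Gamma (1 / 4 + I * t / 2) := by
    refine (differentiableAt_Gamma _ fun m hm => ?_).continuousAt
    have := congrArg Complex.re hm
    simp at this
    have hm0 : (0 : ℝ) ≤ m := Nat.cast_nonneg m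
    linarith
  exact ContinuousAt.comp (f := fun t : ℝ => (1 / 4 + I * t / 2 : ℂ)) h1 (by fun_prop)

lemma phase_cont : Continuous phase := by
  unfold phase
  refine Continuous.mul (gamma_cont.div ?_ ?_) (by fun_prop)
  · exact Complex.continuous_ofReal.comp gamma_cont.norm
  · intro t
    rw [Complex.ofReal_ne_zero]
    exact norm_ne_zero_iff.mpr (gamma_ne t)

lemma phase_ne (t : ℝ) : phase t ≠ 0 := by
  unfold phase
  refine mul_ne_zero (div_ne_zero (gamma_ne t) ?_) (Complex.exp_ne_zero _)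
  rw [Complex.ofReal_ne_zero]
  exact norm_ne_zero_iff.mpr (gamma_ne t)

lemma Z_zero_iff (t : ℝ) : Z t = 0 ↔ riemannZeta (1 / 2 + I * t) = 0 := by
  unfold Z
  rw [mul_eq_zero]
  exact ⟨fun h => h.resolve_left (phase_ne t), Or.inr⟩

lemma zeta_diff (t : ℝ) : DifferentiableAt ℂ riemannZeta (1 / 2 + I * t) := by
  refine differentiableAt_riemannZeta fun h => ?_
  have := congrArg Complex.re h
  norm_num at this

lemma Z_hasDerivAt (t : ℝ) (h : riemannZeta (1 / 2 + I * t) = 0) :
    HasDerivAt Z (phase t * (deriv riemannZeta (1 / 2 + I * t) * I)) t := by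
  have hg : HasDerivAt (fun u : ℝ => riemannZeta (1 / 2 + I * u))
      (deriv riemannZeta (1 / 2 + I * t) * I) t := by
    have h1 : HasDerivAt (fun u : ℝ => (1 / 2 + I * u : ℂ)) I t := by
      have h2 : HasDerivAt (fun u : ℝ => (u : ℂ)) 1 t := Complex.ofRealCLM.hasDerivAt
      simpa using (h2.const_mul I).const_add (1 / 2 : ℂ)
    exact HasDerivAt.comp (h₂ := riemannZeta) t (zeta_diff t).hasDerivAt h1
  rw [hasDerivAt_iff_tendsto_slope] at hg ⊢
  have h3 : Tendsto phase (𝓝[≠] t) (𝓝 (phase t)) :=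
    phase_cont.continuousAt.tendsto.mono_left nhdsWithin_le_nhds
  refine (h3.mul hg).congr fun u => ?_
  have hZ : Z t = 0 := (Z_zero_iff t).mpr h
  rw [slope_def_module, slope_def_module, hZ, h, sub_zero, sub_zero]
  unfold Z
  simp only [Complex.real_smul]
  ring

lemma zeta_analytic {s : ℂ} (hs : s ≠ 1) : AnalyticAt ℂ riemannZeta s := by
  have : DifferentiableOn ℂ riemannZeta ({1}ᶜ : Set ℂ) := fun z hz =>
    (differentiableAt_riemannZeta hz).differentiableWithinAt
  exact this.analyticAt (isOpen_compl_singleton.mem_nhds hs)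

/-- a zero of `Z` is simple if the corresponding zero of zeta is simple -/
lemma simple_of_order {t : ℝ} (h : riemannZeta (1 / 2 + I * t) = 0)
    (h1 : analyticOrderNatAt riemannZeta (1 / 2 + I * t) = 1) : deriv Z t ≠ 0 := by
  rw [(Z_hasDerivAt t h).deriv]
  refine mul_ne_zero (phase_ne t) (mul_ne_zero ?_ I_ne_zero)
  have hs : (1 / 2 + I * t : ℂ) ≠ 1 := by
    intro h
    have := congrArg Complex.re h
    norm_num at this
  have ha := zeta_analytic hs
  have h2 : analyticOrderAt riemannZeta (1 / 2 + I * t) = 1 := by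
    unfold analyticOrderNatAt at h1
    have h3 : analyticOrderAt riemannZeta (1 / 2 + I * t) ≠ ⊤ := by
      intro h4; rw [h4] at h1; simp at h1
    rw [← ENat.coe_toNat h3, h1]; rfl
  have h3 := ha.analyticOrderAt_deriv_add_one
  simp only [h, sub_zero] at h3
  rw [h2] at h3
  have h4 : analyticOrderAt (deriv riemannZeta) (1 / 2 + I * t) = 0 := by
    revert h3
    generalize analyticOrderAt (deriv riemannZeta) (1 / 2 + I * t) = x
    intro h3
    cases x with
    | top => simp at h3
    | coe n =>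
      have h6 : n + 1 = 1 := by exact_mod_cast h3
      have h7 : n = 0 := by omega
      rw [h7]; rfl
  exact ha.deriv.analyticOrderAt_eq_zero.mp h4

lemma zeros_eq (T : ℝ) : zeros T = H370.zset riemannZeta 0 T := by
  ext s
  simp only [zeros, H370.zset, Set.mem_ofPred_eq]
  tauto

/-- the set of nontrivial zeros up to height `T` is finite -/
theorem zeros_finite (T : ℝ) : (zeros T).Finite := by
  rw [zeros_eq]
  exact H370.zeta_zeros_finite T

lemma N_eq (T : ℝ) : N T = H370.NN riemannZeta 0 T := by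
  unfold N H370.NN H370.mult
  rw [zeros_eq]

lemma phase_norm (t : ℝ) : ‖phase t‖ = 1 := by
  unfold phase
  rw [norm_mul, norm_div, Complex.norm_real, norm_norm, div_self (norm_ne_zero_iff.mpr (gamma_ne t)),
    Complex.norm_exp, one_mul]
  have : (-(I * ((t : ℂ) / 2) * (Real.log Real.pi : ℂ))).re = 0 := by
    have e : -(I * ((t : ℂ) / 2) * (Real.log Real.pi : ℂ)) = ((-(t / 2 * Real.log Real.pi) : ℝ) : ℂ) * I := by
      push_cast; ring
    rw [e]
    simp
  rw [this, Real.exp_zero]

/-- the set of the zeros that are counted is finite -/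
theorem goodZeros_finite (C T : ℝ) : (goodZeros C T).Finite := by
  have hinj : Function.Injective fun t : ℝ => (1 / 2 + I * t : ℂ) := by
    intro a b hab
    have := congrArg Complex.im hab
    simpa using this
  refine Set.Finite.of_finite_image ((zeros_finite T).subset ?_) hinj.injOn
  rintro s ⟨t, ⟨h1, h2, h3, h4⟩, rfl⟩
  refine ⟨(Z_zero_iff t).mp h3, ?_, ?_, ?_, ?_⟩ <;> simp <;> first | assumption | norm_num

lemma PQ_le (C T : ℝ) : H344.PQ riemannZeta (Pool.Agent.W354.ZP.Qd C) 0 T ≤ (goodZeros C T).ncard := by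
  unfold H344.PQ
  refine Set.ncard_le_ncard_of_injOn (fun s => s.im) ?_ ?_ (goodZeros_finite C T)
  · rintro s ⟨⟨h1, h2, h3, h4, h5⟩, h6, h7, h8, h9⟩
    have hs : (1 / 2 + I * s.im : ℂ) = s := by
      apply Complex.ext
      · simp [h6]
      · simp
    have hz : riemannZeta (1 / 2 + I * (s.im : ℂ)) = 0 := by rw [hs]; exact h5
    have hd : deriv Z s.im ≠ 0 := simple_of_order hz (by rw [hs]; exact h7)
    have hn : ‖deriv Z s.im‖ = ‖deriv riemannZeta s‖ := by
      rw [(Z_hasDerivAt s.im hz).deriv, norm_mul, norm_mul, phase_norm, Complex.norm_I, one_mul,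
        mul_one, hs]
    have hlog : 0 < Real.log s.im := Real.log_pos (by linarith)
    have hpos : 0 < ‖deriv riemannZeta s‖ := by
      rw [← hn]; exact norm_pos_iff.mpr hd
    have h10 := abs_le.mp h9
    refine ⟨h3, h4, (Z_zero_iff _).mpr hz, hd, ?_, ?_⟩
    · rw [hn, ← Real.log_le_log_iff (by positivity) hpos, Real.log_mul hlog.ne' (Real.exp_pos _).ne',
        Real.log_exp]
      linarith [h10.1]
    · rw [hn, ← Real.log_le_log_iff hpos (by positivity), Real.log_mul hlog.ne' (Real.exp_pos _).ne',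
        Real.log_exp]
      linarith [h10.2]
  · rintro s ⟨-, h6, -⟩ s' ⟨-, h6', -⟩ h
    exact Complex.ext (h6.trans h6'.symm) h

theorem result : ∃ C : ℝ, ∃ T₀ : ℝ, ∀ T : ℝ, T₀ ≤ T →
    0.6725 * (N T : ℝ) ≤ ((goodZeros C T).ncard : ℝ) := by
  obtain ⟨C, X0, hX0⟩ := Pool.Agent.W354.ZP.final
  refine ⟨C, X0, fun T hT => ?_⟩
  rw [N_eq]
  have h1 := hX0 T hT
  have h2 : (H344.PQ riemannZeta (Pool.Agent.W354.ZP.Qd C) 0 T : ℝ) ≤ ((goodZeros C T).ncard : ℝ) := by
    exact_mod_cast PQ_le C T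
  have h3 := Pool.Agent.W354.ZP.cMTinv_sharp
  have h4 : (0 : ℝ) ≤ H370.NN riemannZeta 0 T := Nat.cast_nonneg _
  have h5 : 0.6725 * (H370.NN riemannZeta 0 T : ℝ) ≤ (2 - H370.cMTinv) * (H370.NN riemannZeta 0 T : ℝ) :=
    mul_le_mul_of_nonneg_right (by norm_num at h3 ⊢; linarith) h4
  linarith

end Pool.Agent.Results.MP_6bc78b_nt.SizeOfDerivative
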